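import Pool.Agent.Lib.MP_a13a55_pr.Heis

namespace Pool.Agent.Results.MP_a13a55_pr.InfinitePath

open MeasureTheory Pool.Agent.Lib.MP_a13a55_pr

/-- `D i u v` means that `uv` is an edge of colour `i` oriented from `u` to `v`. `D` is a Schreier
decoration of `G`: only edges are decorated, every edge gets exactly one colour and exactly one
orientation, and at every vertex exactly one edge of each colour points in and exactly one
points out. -/
def IsSchreierDecoration {V : Type} (G : SimpleGraph V) (d : ℕ) (D : Fin d → V → V → Prop) :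
    Prop :=
  (∀ u v, G.Adj u v ↔ ∃ i, D i u v ∨ D i v u) ∧
  (∀ i j u v, D i u v → D j u v → i = j) ∧
  (∀ i j u v, D i u v → ¬ D j v u) ∧
  (∀ i v, ∃! u, D i u v) ∧
  (∀ i v, ∃! w, D i v w)

/-- `F` is a measurable map from `[0,1]^V` to Schreier decorations of `G` that commutes with the
action of `Aut(G)`. -/
def IsFactorMap {V : Type} (G : SimpleGraph V) (d : ℕ)
    (F : (V → unitInterval) → (Fin d → V → V → Prop)) : Prop :=
  Measurable F ∧ (∀ ω, IsSchreierDecoration G d (F ω)) ∧
    ∀ (φ : G ≃g G) (ω : V → unitInterval) (i : Fin d) (u v : V),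
      F (fun x => ω (φ.symm x)) i (φ u) (φ v) ↔ F ω i u v

/-- There is a connected, countable, transitive `2d`-regular graph with a factor-of-iid Schreier
decoration that almost surely has a bi-infinite monochromatic directed path. -/
theorem result :
    ∃ (d : ℕ) (V : Type) (G : SimpleGraph V), 1 ≤ d ∧ Countable V ∧ G.Connected ∧
      (∀ v, (G.neighborSet v).encard = 2 * d) ∧
      (∀ u v, ∃ φ : G ≃g G, φ u = v) ∧
      ∃ F : (V → unitInterval) → (Fin d → V → V → Prop), IsFactorMap G d F ∧
        ∀ᵐ ω ∂(Measure.infinitePi fun _ : V => (volume : Measure unitInterval)),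
          ∃ (i : Fin d) (p : ℤ → V), Function.Injective p ∧ ∀ n, F ω i (p n) (p (n + 1)) := by
  refine ⟨5, Heis, cay, by norm_num, inferInstance, cay_connected,
    fun v => by rw [encard_neighborSet]; norm_num, cay_transitive,
    fun _ i u v => v = u * g5 i, ⟨measurable_const, fun _ => ⟨?_, ?_, ?_, ?_, ?_⟩, ?_⟩, ?_⟩
  · intro u v
    constructor
    · rintro ⟨k, rfl⟩
      obtain ⟨i, h | h⟩ := gen_cases k
      · exact ⟨i, Or.inl (by rw [h])⟩
      · exact ⟨i, Or.inr (by rw [h]; group)⟩
    · rintro ⟨i, rfl | rfl⟩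
      · exact ⟨_, rfl⟩
      · exact cay.adj_symm ⟨_, rfl⟩
  · rintro i j u v rfl h
    exact g5_inj _ _ (mul_left_cancel h)
  · rintro i j u v rfl h
    rw [mul_assoc] at h
    exact g5_mul i j (by simpa using h)
  · intro i v
    refine ⟨v * (g5 i)⁻¹, by group, ?_⟩
    rintro u rfl
    group
  · intro i v
    exact ⟨v * g5 i, rfl, fun _ h => h⟩
  · intro φ _ i u v
    change φ v = φ u * g5 i ↔ v = u * g5 i
    rw [g5, ← aut_mul_gen]
    exact φ.injective.eq_iff
  · refine Filter.Eventually.of_forall fun _ => ⟨0, fun n => ⟨n, 0, 0⟩, fun m n h => ?_, fun n => ?_⟩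
    · exact congrArg Heis.a h
    · simp [g5, gen, mul_def]

end Pool.Agent.Results.MP_a13a55_pr.InfinitePath
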