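import Pool.Agent.Lib.MP_a13a55_pr.Deco

set_option autoImplicit false

namespace Pool.Agent.Results.MP_a13a55_pr.Reversible

open MeasureTheory

/-- `D i u v` means that `uv` is an edge of colour `i` oriented from `u` to `v`. `D` is a Schreier
decoration of `G`: only edges are decorated, every edge gets exactly one colour and exactly one
orientation, and at every vertex exactly one edge of each colour points in and exactly one
points out. -/
def IsSchreierDecoration {V : Type} (G : SimpleGraph V) (d : ℕ) (D : Fin d → V → V → Prop) :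
    Prop :=
  (∀ u v, G.Adj u v ↔ ∃ i, D i u v ∨ D i v u) ∧
  (∀ i j u v, D i u v → D j u v → i = j) ∧
  (∀ i j u v, D i u v → ¬ D j v u) ∧
  (∀ i v, ∃! u, D i u v) ∧
  (∀ i v, ∃! w, D i v w)

open Pool.Agent.Lib.MP_a13a55_pr in
/-- A connected, countable, transitive `2d`-regular graph in which every edge is reversed by an
automorphism, with a factor-of-iid Schreier decoration having a colour all of whose components
are bi-infinite directed paths. -/
theorem result :
    ∃ (d : ℕ) (V : Type) (G : SimpleGraph V), 1 ≤ d ∧ Countable V ∧ G.Connected ∧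
      (∀ v, (G.neighborSet v).encard = 2 * d) ∧
      (∀ u v, ∃ φ : G ≃g G, φ u = v) ∧
      (∀ u v, G.Adj u v → ∃ φ : G ≃g G, φ u = v ∧ φ v = u) ∧
      ∃ F : (V → unitInterval) → (Fin d → V → V → Prop), Measurable F ∧
        (∀ (φ : G ≃g G) (ω : V → unitInterval) (i : Fin d) (u v : V),
          F (fun x => ω (φ.symm x)) i (φ u) (φ v) ↔ F ω i u v) ∧
        ∀ᵐ ω ∂(Measure.infinitePi fun _ : V => (volume : Measure unitInterval)),
          IsSchreierDecoration G d (F ω) ∧
          ∃ i : Fin d, ∀ v : V, ∃ p : ℤ → V,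
            p 0 = v ∧ Function.Injective p ∧ ∀ n, F ω i (p n) (p (n + 1)) := by
  refine ⟨3, Sym.V, Sym.G, by norm_num, inferInstance, Sym.connected,
    fun v => by rw [Sym.degree]; norm_num, Sym.transitive, Sym.reversible, Sym.D, Sym.meas_D,
    Sym.D_aut, ?_⟩
  filter_upwards [Sym.ae_injective] with ω h
  exact ⟨⟨Sym.adj_iff_D h, fun _ _ _ _ h1 => (Sym.D_excl h h1).1,
    fun _ _ _ _ h1 => (Sym.D_excl h h1).2, Sym.D_in_unique h, Sym.D_out_unique h⟩,
    0, Sym.inf_path h⟩

end Pool.Agent.Results.MP_a13a55_pr.Reversible
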